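import Pool.Agent.helper84.TEX.Spec

/-!
# Row ta:XIN (MP_3703a7_ag): the condition `Indep`
-/

set_option autoImplicit false

namespace Pool.Agent.TEX

open Pool.Agent.TC Pool.Agent.TN Polynomial

noncomputable section

theorem XIN_prod {n : ℕ} (F : Fin (n + 1) → Fin (n + 1) → ℝ) (e : Fin (n + 1) → Fin (n + 1) → ℤ)
    (u u' : Fin (n + 1)) (huu : u < u')
    (h1 : ∀ j j', j < j' → ¬ (j = u ∧ j' = u') → F j j' = 1) :
    ∏ j, ∏ j' ∈ Finset.Ioi j, F j j' ^ e j j' = F u u' ^ e u u' := by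
  rw [Finset.prod_eq_single u, Finset.prod_eq_single u']
  · intro j' hj' hne
    rw [h1 u j' (Finset.mem_Ioi.1 hj') (fun h => hne h.2), one_zpow]
  · intro h
    exact absurd (Finset.mem_Ioi.2 huu) h
  · intro j _ hne
    refine Finset.prod_eq_one fun j' hj' => ?_
    rw [h1 j j' (Finset.mem_Ioi.1 hj') (fun h => hne h.1), one_zpow]
  · intro h
    exact absurd (Finset.mem_univ _) h

theorem XIN (hXPL : XPL_stmt) : XIN_stmt := by
  intro l D f r s hl hn hR hLoc i e z _ hz hzl j j' hjj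
  haveI : Fact (r i).Prime := ⟨hLoc.rp i⟩
  obtain ⟨ψ, y, hy, -, hB, hC, hK⟩ := hXPL l D f r s hl hn hR hLoc i j j' hjj
  obtain ⟨w, hw⟩ := hK z hz
  have h1 : w ^ l = ∏ a, ∏ b ∈ Finset.Ioi a, (y i a - y i b) ^ e a b := by
    apply (algebraMap ℚ_[r i] (Om (r i))).injective
    rw [map_pow, hw, ← map_pow, hzl, Cvs.prd, map_prod, map_prod]
    refine Finset.prod_congr rfl fun a _ => ?_
    rw [map_prod, map_prod]
    refine Finset.prod_congr rfl fun b _ => ?_
    rw [map_zpow₀, map_zpow₀, map_sub, map_sub, hy, hy]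
  have h2 : ‖w‖ ^ l = (((r i : ℕ) : ℝ)⁻¹) ^ e j j' := by
    rw [← norm_pow, h1, norm_prod, ← hC]
    rw [← XIN_prod (fun a b => ‖y i a - y i b‖) e j j' hjj hB]
    refine Finset.prod_congr rfl fun a _ => ?_
    rw [norm_prod]
    exact Finset.prod_congr rfl fun b _ => norm_zpow _ _
  have hr1 : (1 : ℝ) < ((r i : ℕ) : ℝ) := by exact_mod_cast (hLoc.rp i).one_lt
  have hr0 : (0 : ℝ) < ((r i : ℕ) : ℝ) := by linarith
  have hw0 : w ≠ 0 := by
    rintro rfl
    rw [norm_zero, zero_pow hl.ne_zero] at h2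
    exact absurd h2.symm (zpow_ne_zero _ (inv_ne_zero hr0.ne'))
  rw [Padic.norm_eq_zpow_neg_valuation hw0, inv_zpow, ← zpow_neg, ← zpow_natCast, ← zpow_mul] at h2
  have h3 := zpow_right_injective₀ hr0 hr1.ne' h2
  refine ⟨w.valuation, ?_⟩
  linarith

end

end Pool.Agent.TEX
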